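import Pool.Agent.Y458.HCX.Up

/-! The full set of cut characters of a 2-homogeneous dense chain can be prescribed: below any
regular cardinal every set of pairs of regular cardinals occurs, and the remaining characters are
exactly the pairs whose maximum is that cardinal. -/

namespace Pool.Agent.Results.MP_e86704_lc.FullCharacterSet

open Cardinal Set Ordinal
open Pool.Agent.W913 Pool.Agent.Y458

universe u

/-- `(A, B)` is a cut of the chain `T`: both parts are nonempty, `A` lies below `B`, `A` has no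
largest element, `B` has no smallest element, and `T` is `A ∪ B` or `A ∪ {r} ∪ B` for a single
element `r` lying between `A` and `B`. -/
structure IsCut {T : Type u} [LinearOrder T] (A B : Set T) : Prop where
  left_nonempty : A.Nonempty
  right_nonempty : B.Nonempty
  lt : ∀ a ∈ A, ∀ b ∈ B, a < b
  no_max : ∀ a ∈ A, ∃ a' ∈ A, a < a'
  no_min : ∀ b ∈ B, ∃ b' ∈ B, b' < b
  cover : A ∪ B = Set.univ ∨
    ∃ r : T, (∀ a ∈ A, a < r) ∧ (∀ b ∈ B, r < b) ∧ A ∪ {r} ∪ B = Set.univ

/-- The set of characters of all cuts of `T`: the pairs `(α, β)` of ordinals such that some cut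
`(A, B)` of `T` has cofinality of `A` equal to `ℵ_ α` and coinitiality of `B` equal to `ℵ_ β`. -/
def cutCharacters (T : Type u) [LinearOrder T] : Set (Ordinal.{u} × Ordinal.{u}) :=
  {p | ∃ A B : Set T, IsCut A B ∧ Order.cof A = ℵ_ p.1 ∧ Order.cof (OrderDual B) = ℵ_ p.2}

/-- Any two nondegenerate closed bounded intervals of `T` are order-isomorphic. -/
def TwoHomogeneous (T : Type u) [LinearOrder T] : Prop :=
  ∀ a b c d : T, a < b → c < d → Nonempty (Set.Icc a b ≃o Set.Icc c d)

/-- `C` is realizable with respect to `X`: some 2-homogeneous dense chain `T` (with at least two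
points) satisfies `C(T) ∩ X² = C`. -/
def Realizable (X : Set Ordinal.{u}) (C : Set (Ordinal.{u} × Ordinal.{u})) : Prop :=
  ∃ (T : Type u) (_ : LinearOrder T), Nontrivial T ∧ DenselyOrdered T ∧ TwoHomogeneous T ∧
    cutCharacters T ∩ X ×ˢ X = C

theorem alephInj {a b : Ordinal.{u}} (h : ℵ_ a = ℵ_ b) : a = b := aleph.injective h

/-- the code of a pair -/
noncomputable def code (p : Ordinal.{u} × Ordinal.{u}) : Ordinal.{u} :=
  ω ^ (ω_ p.2 * (p.1 + 1 + 1))

theorem exp_ne (p : Ordinal.{u} × Ordinal.{u}) : (ω_ p.2 * (p.1 + 1 + 1)) ≠ 0 :=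
  mul_ne_zero (omega_pos _).ne' (by simp)

theorem code_ne (p : Ordinal.{u} × Ordinal.{u}) : code p ≠ 0 :=
  opow_ne_zero _ omega0_ne_zero

theorem cof_code {p : Ordinal.{u} × Ordinal.{u}} (hp : (ℵ_ p.2).IsRegular) :
    (code p).cof = ℵ_ p.2 := by
  have h1 : ω_ p.2 * (p.1 + 1 + 1) = ω_ p.2 * (p.1 + 1) + ω_ p.2 := by
    rw [mul_add, mul_one]
  have hl : Order.IsSuccLimit (ω_ p.2 * (p.1 + 1 + 1)) :=
    isSuccLimit_mul_left (isSuccLimit_omega _) (by simp)
  rw [code, Ordinal.cof_map_of_isNormal (isNormal_opow one_lt_omega0) hl, h1,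
    Ordinal.cof_add _ (omega_pos _).ne', hp.cof_omega_eq]

theorem code_inj {p q : Ordinal.{u} × Ordinal.{u}} (hp : (ℵ_ p.2).IsRegular)
    (hq : (ℵ_ q.2).IsRegular) (h : code p = code q) : p = q := by
  have h1 : ℵ_ p.2 = ℵ_ q.2 := by rw [← cof_code hp, ← cof_code hq, h]
  have h2 : p.2 = q.2 := alephInj h1
  rw [code, code, opow_right_inj one_lt_omega0, h2] at h
  have h3 : p.1 + 1 + 1 = q.1 + 1 + 1 := mul_left_cancel₀ (omega_pos _).ne' h
  have h4 : p.1 = q.1 := by simpa using h3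
  exact Prod.ext h4 h2

/-- a level of cofinality `ℵ_ β` which is the code of no pair -/
noncomputable def free (β : Ordinal.{u}) : Ordinal.{u} := ω ^ (ω_ β)

theorem free_ne (β : Ordinal.{u}) : free β ≠ 0 := opow_ne_zero _ omega0_ne_zero

theorem cof_free {β : Ordinal.{u}} (hβ : (ℵ_ β).IsRegular) : (free β).cof = ℵ_ β := by
  rw [free, Ordinal.cof_map_of_isNormal (isNormal_opow one_lt_omega0) (isSuccLimit_omega _),
    hβ.cof_omega_eq]

theorem free_ne_code {β : Ordinal.{u}} (hβ : (ℵ_ β).IsRegular) {p : Ordinal.{u} × Ordinal.{u}}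
    (hp : (ℵ_ p.2).IsRegular) : free β ≠ code p := by
  intro h
  have h1 : ℵ_ β = ℵ_ p.2 := by rw [← cof_code hp, ← cof_free hβ, h]
  have h2 : β = p.2 := alephInj h1
  rw [free, code, opow_right_inj one_lt_omega0, h2] at h
  have h3 : ω_ p.2 * 1 = ω_ p.2 * (p.1 + 1 + 1) := by rw [mul_one]; exact h
  have h4 : (1 : Ordinal.{u}) = p.1 + 1 + 1 := mul_left_cancel₀ (omega_pos _).ne' h3
  have h5 : (1 : Ordinal.{u}) ≤ p.1 + 1 := le_add_self
  have h6 : p.1 + 1 < p.1 + 1 + 1 := Order.lt_add_one_iff.mpr le_rfl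
  exact absurd h4 (h5.trans_lt h6).ne

/-- a cut `(A, B)` with a regular character on both sides has a character -/
theorem regular_left {T : Type u} [LinearOrder T] {A B : Set T} (h : IsCut A B) :
    (Order.cof A).IsRegular := by
  have h1 : Nonempty A := h.left_nonempty.to_subtype
  have h2 : NoMaxOrder A := ⟨fun a => by
    obtain ⟨a', h1, h2⟩ := h.no_max a.1 a.2
    exact ⟨⟨a', h1⟩, h2⟩⟩
  exact HCX.isRegular_cof

theorem regular_right {T : Type u} [LinearOrder T] {A B : Set T} (h : IsCut A B) :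
    (Order.cof (OrderDual B)).IsRegular := by
  have h1 : Nonempty (OrderDual B) := ⟨OrderDual.toDual ⟨_, h.right_nonempty.some_mem⟩⟩
  have h2 : NoMaxOrder (OrderDual B) := ⟨fun a => by
    obtain ⟨a', h1, h2⟩ := h.no_min (OrderDual.ofDual a).1 (OrderDual.ofDual a).2
    exact ⟨OrderDual.toDual ⟨a', h1⟩, h2⟩⟩
  exact HCX.isRegular_cof

theorem main (ν : Ordinal.{u}) (hν : (ℵ_ ν).IsRegular) (C : Set (Ordinal.{u} × Ordinal.{u}))
    (hC1 : ∀ p ∈ C, p.1 < ν ∧ p.2 < ν) (hC2 : ∀ p ∈ C, (ℵ_ p.1).IsRegular ∧ (ℵ_ p.2).IsRegular) :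
    ∃ (T : Type u) (_ : LinearOrder T), Nontrivial T ∧ DenselyOrdered T ∧ TwoHomogeneous T ∧
      Order.cof T = ℵ_ ν ∧ Order.cof (OrderDual T) = ℵ_ ν ∧
      (∀ x : T, Order.cof (Iio x) = ℵ_ ν ∧ Order.cof (OrderDual (Ioi x)) = ℵ_ ν) ∧
      cutCharacters T = C ∪ {p | (ℵ_ p.1).IsRegular ∧ (ℵ_ p.2).IsRegular ∧ max p.1 p.2 = ν} := by
  classical
  set κ : Cardinal.{u} := ℵ_ ν with hκ
  have hinf : ℵ₀ ≤ κ := hν.1
  have hcofΛ : Order.cof κ.ord.ToType = κ := by rw [Ordinal.cof_toType, hν.cof_ord]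
  have hreg' : IsRegularCardinalOrder κ.ord.ToType :=
    ⟨by rw [type_toType, hcofΛ]⟩
  have hnomax : NoMaxOrder κ.ord.ToType := by
    rw [← isSuccPrelimit_type_lt_iff, type_toType]
    exact (isSuccLimit_ord hν.1).isSuccPrelimit
  have hne : Nonempty κ.ord.ToType := by
    rw [← mk_ne_zero_iff]
    simpa using hν.ne_zero
  let Λ : Type u := κ.ord.ToType
  have hcard : #Λ ≤ κ := (mk_ord_toType κ).le
  have hord : κ.ord = ω_ ν := Cardinal.ord_aleph ν
  have hsmall : ∀ e : Ordinal.{u}, 0 < ν → e < κ.ord → ω ^ e < typeLT Λ := by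
    intro e h0 he
    rw [type_toType]
    refine isPrincipal_opow_ord hinf ?_ he
    rw [hord, ← omega_zero, omega_lt_omega]
    exact h0
  have homega : ∀ β < ν, ω_ β < κ.ord := by
    intro β hβ
    rw [hord, omega_lt_omega]
    exact hβ
  have hcode : ∀ p ∈ C, code p < typeLT Λ := by
    intro p hp
    have h0 : 0 < ν := lt_of_le_of_lt zero_le (hC1 p hp).1
    refine hsmall _ h0 ?_
    refine isPrincipal_mul_ord hinf (homega _ (hC1 p hp).2) ?_
    have hl : Order.IsSuccLimit κ.ord := isSuccLimit_ord hinf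
    have h1 : p.1 < κ.ord := by
      rw [hord]
      exact (hC1 p hp).1.trans_le (le_omega_self ν)
    have h2 : p.1 + 1 < κ.ord := hl.add_one_lt h1
    exact hl.add_one_lt h2
  have hfree : ∀ β < ν, free β < typeLT Λ := fun β hβ =>
    hsmall _ (lt_of_le_of_lt zero_le hβ) (homega β hβ)
  have hS : ∀ α : Ordinal.{u}, ∃ s : Set Λ, IsLowerSet s ∧ s.Nonempty ∧
      (∀ i ∈ s, ∃ j ∈ s, i < j) ∧ (α < ν → (ℵ_ α).IsRegular → Order.cof s = ℵ_ α) := by
    intro α
    by_cases hα : α < ν
    · have h1 : ω_ α < typeLT Λ := by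
        rw [type_toType]
        exact homega α hα
      set ξ : Λ := Ordinal.enum (α := Λ) (· < ·) ⟨ω_ α, h1⟩ with hξ
      have hty : typeLT (Iio ξ) = ω_ α := by
        rw [type_Iio_lt]
        exact typein_enum _ h1
      have hnm : NoMaxOrder (Iio ξ) := by
        rw [← isSuccPrelimit_type_lt_iff, hty]
        exact (isSuccLimit_omega α).isSuccPrelimit
      refine ⟨Iio ξ, isLowerSet_Iio ξ, ?_, ?_, ?_⟩
      · by_contra hcon
        rw [not_nonempty_iff_eq_empty] at hcon
        have h0 : typeLT (Iio ξ) = 0 := by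
          rw [type_eq_zero_iff_isEmpty, hcon]
          infer_instance
        rw [hty] at h0
        exact (omega_pos α).ne' h0
      · intro i hi
        obtain ⟨j, hj⟩ := exists_gt (⟨i, hi⟩ : Iio ξ)
        exact ⟨j.1, j.2, hj⟩
      · intro _ hreg
        rw [← Ordinal.cof_type, hty, hreg.cof_omega_eq]
    · exact ⟨Set.univ, isLowerSet_univ, univ_nonempty,
        fun i _ => by obtain ⟨j, hj⟩ := exists_gt i; exact ⟨j, trivial, hj⟩,
        fun h => absurd h hα⟩
  choose S hSl hSne hSnm hScof using hS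
  let w : (Ordinal.{u} × Ordinal.{u} → Prop) → Set (HC.K Λ) := fun P =>
    if h : ∃ p, P p then HC.V (S h.choose.1) else HC.V Set.univ
  have hw1 : ∀ P, (∃ p, P p) → ∃ p, P p ∧ w P = HC.V (S p.1) := by
    intro P h
    exact ⟨h.choose, h.choose_spec, by simp only [w, dif_pos h]⟩
  have hw2 : ∀ P, (¬ ∃ p, P p) → w P = HC.V Set.univ := by
    intro P h
    simp only [w, dif_neg h]
  let W : Λ → Set (HC.K Λ) := fun ξ => w (fun p => p ∈ C ∧ HC.Col ξ (code p))
  have hWcase : ∀ ξ, (∃ p ∈ C, HC.Col ξ (code p) ∧ W ξ = HC.V (S p.1)) ∨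
      ((¬ ∃ p ∈ C, HC.Col ξ (code p)) ∧ W ξ = HC.V Set.univ) := by
    intro ξ
    by_cases h : ∃ p, p ∈ C ∧ HC.Col ξ (code p)
    · obtain ⟨p, ⟨h1, h2⟩, h3⟩ := hw1 _ h
      exact Or.inl ⟨p, h1, h2, h3⟩
    · exact Or.inr ⟨h, hw2 _ h⟩
  have hunm : ∀ i ∈ (Set.univ : Set Λ), ∃ j ∈ (Set.univ : Set Λ), i < j := by
    intro i _
    obtain ⟨j, hj⟩ := exists_gt i
    exact ⟨j, trivial, hj⟩
  have hVne : ∀ s : Set Λ, s.Nonempty → (HC.V s).Nonempty := by
    rintro s ⟨i, hi⟩
    exact ⟨_, HC.pre_mem_V hi⟩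
  have hVuniv : HC.V (Set.univ : Set Λ) = Set.univ := by
    ext x
    simp only [mem_univ, iff_true]
    obtain ⟨i⟩ := hne
    obtain ⟨j, _, hj⟩ := x.both false i
    exact ⟨j, trivial, hj⟩
  have hgood : HC.Good W := by
    refine ⟨?_, ?_, ?_, ?_, ?_⟩
    · intro ξ
      rcases hWcase ξ with ⟨p, _, _, h⟩ | ⟨_, h⟩
      · rw [h]; exact HC.V_lower (hSl _)
      · rw [h]; exact HC.V_lower isLowerSet_univ
    · intro ξ
      rcases hWcase ξ with ⟨p, _, _, h⟩ | ⟨_, h⟩
      · rw [h]; exact hVne _ (hSne _)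
      · rw [h]; exact hVne _ univ_nonempty
    · intro ξ
      rcases hWcase ξ with ⟨p, _, _, h⟩ | ⟨_, h⟩
      · rw [h]; exact fun x hx => HC.V_noMax (hSl _) (hSnm _) hx
      · rw [h]; exact fun x hx => HC.V_noMax isLowerSet_univ hunm hx
    · intro δ ε h1 h2
      rcases hWcase ε with ⟨p, _, h3, _⟩ | ⟨_, h⟩
      · exact absurd h3 (HC.Col.next h1 h2 (code_ne p))
      · rw [h, hVuniv]
    · intro γ δ
      refine ⟨HC.tl γ δ, fun ξ => ?_⟩
      show w _ = w _
      congr 1
      funext p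
      rw [HC.Col.iff (HC.tl γ δ) ξ (code_ne p)]
  have hcofun : Order.cof (Set.univ : Set Λ) = κ := by
    exact (Order.cof_eq_of_isCofinal IsCofinal.univ).trans hcofΛ
  have hcofWfree : ∀ δ, (¬ ∃ p ∈ C, HC.Col δ (code p)) → Order.cof (W δ) = κ := by
    intro δ hδ
    rcases hWcase δ with ⟨p, hp, h1, _⟩ | ⟨_, h⟩
    · exact absurd ⟨p, hp, h1⟩ hδ
    · rw [h, HC.cof_V isLowerSet_univ hunm, hcofun]
  obtain ⟨bot, _, hbot⟩ := HC.exists_min_mem (Set.univ : Set Λ) univ_nonempty
  have hbot' : ∀ j, ¬ j < bot := fun j hj => hbot j hj (mem_univ j)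
  have hWbot : W bot = Set.univ := by
    rcases hWcase bot with ⟨p, _, h1, _⟩ | ⟨_, h⟩
    · obtain ⟨j, hj⟩ := h1.nonempty
      exact absurd hj (hbot' j)
    · rw [h, hVuniv]
  have hcutIff : ∀ {A B : Set (HC.T W)}, HC.IsCut A B → IsCut A B := fun h =>
    ⟨h.left_nonempty, h.right_nonempty, h.lt, h.no_max, h.no_min, h.cover⟩
  have hpt : ∀ x : HC.T W, Order.cof (Iio x) = κ ∧ Order.cof (OrderDual (Ioi x)) = κ := fun x =>
    ⟨(HCX.T.cof_Iio hgood x).trans hcofΛ, (HCX.T.coinit_Ioi hgood x).trans hcofΛ⟩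
  have hnt : ∃ x y : HC.T W, x < y := by
    choose y hy using hgood.ne
    let δ : Λ := Classical.choice hne
    obtain ⟨z, _, hz⟩ := HC.T.exists_gt_cone hgood (δ := δ) (s := y) (x := HC.T.mk y hy)
      (fun j _ => rfl)
    exact ⟨_, _, hz⟩
  refine ⟨HC.T W, inferInstance, ?_, ?_, ?_, ?_, ?_, hpt, ?_⟩
  · obtain ⟨x, y, h⟩ := hnt
    exact ⟨_, _, h.ne⟩
  · constructor
    intro x y hxy
    obtain ⟨i, hi1, hi2⟩ := HC.T.lt_iff.mp hxy
    obtain ⟨k, hk⟩ := exists_gt i
    obtain ⟨z, hz, hlt⟩ := HC.T.exists_gt_cone hgood (δ := k) (s := x.fn) (x := x)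
      (fun j _ => rfl)
    refine ⟨z, hlt, HC.T.lt_iff.mpr ⟨i, ?_, ?_⟩⟩
    · intro j hj
      rw [hz j (hj.trans hk), hi1 j hj]
    · rw [hz i hk]; exact hi2
  · exact fun a b c d hab hcd => HC.T.twoHomogeneous hgood a b c d hab hcd
  · exact (HCX.T.cof_eq hgood bot hbot' hWbot).trans hcofΛ
  · exact (HCX.T.coinit_eq hgood bot hbot').trans hcofΛ
  · ext p
    constructor
    · rintro ⟨A, B, hcut, hA, hB⟩
      have hcut' : HC.IsCut A B := ⟨hcut.left_nonempty, hcut.right_nonempty, hcut.lt,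
        hcut.no_max, hcut.no_min, hcut.cover⟩
      have hr1 : (ℵ_ p.1).IsRegular := by rw [← hA]; exact regular_left hcut
      have hr2 : (ℵ_ p.2).IsRegular := by rw [← hB]; exact regular_right hcut
      have hle1 : p.1 ≤ ν := by
        rw [← aleph_le_aleph, ← hA]
        exact HCX.T.cof_le hinf hcard A
      have hle2 : p.2 ≤ ν := by
        rw [← aleph_le_aleph, ← hB]
        exact HCX.T.coinit_le hinf hcard B
      rcases HC.T.cut_character hgood hcut' with h | h | ⟨δ, h1, h2⟩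
      · right
        have h3 : p.1 = ν := alephInj (hA.symm.trans (h.trans hcofΛ))
        exact ⟨hr1, hr2, by rw [h3]; exact max_eq_left hle2⟩
      · right
        have h3 : p.2 = ν := alephInj (hB.symm.trans (h.trans hcofΛ))
        exact ⟨hr1, hr2, by rw [h3]; exact max_eq_right hle1⟩
      · rcases hWcase δ with ⟨q, hq, hcol, hWq⟩ | ⟨hno, hWq⟩
        · left
          rw [hWq, HC.cof_V (hSl _) (hSnm _), hScof _ (hC1 q hq).1 (hC2 q hq).1, hA] at h1
          rw [hcol.cof (code_ne q), cof_code (hC2 q hq).2, hB] at h2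
          have h3 : p = q := Prod.ext (alephInj h1) (alephInj h2)
          rw [h3]; exact hq
        · right
          have h3 : p.1 = ν := alephInj (hA.symm.trans (h1.trans (hcofWfree δ hno)))
          exact ⟨hr1, hr2, by rw [h3]; exact max_eq_left hle2⟩
    · rintro (hp | ⟨hr1, hr2, hmax⟩)
      · obtain ⟨δ, hδ⟩ := HC.Col.exists (Λ := Λ) (exp_ne p) (hcode p hp)
        have hδ' : HC.Col δ (code p) := hδ
        obtain ⟨A, B, hcut, hA, hB⟩ := HC.T.exists_cut hgood δ hδ.nonempty
          (hδ'.limit (code_ne p))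
        refine ⟨A, B, hcutIff hcut, ?_, ?_⟩
        · rcases hWcase δ with ⟨q, hq, hcol, hWq⟩ | ⟨hno, _⟩
          · have h1 : p = q := code_inj (hC2 p hp).2 (hC2 q hq).2 (hδ'.unique hcol)
            rw [hA, hWq, HC.cof_V (hSl _) (hSnm _), hScof _ (hC1 q hq).1 (hC2 q hq).1, h1]
          · exact absurd ⟨p, hp, hδ'⟩ hno
        · rw [hB, hδ'.cof (code_ne p), cof_code (hC2 p hp).2]
      · by_cases h1 : p.1 = ν
        · by_cases h2 : p.2 = ν
          · obtain ⟨x, y, _⟩ := hnt
            have hx1 : (Iio x).Nonempty := by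
              by_contra hcon
              rw [not_nonempty_iff_eq_empty] at hcon
              have h3 := (hpt x).1
              rw [hcon, Order.cof_eq_zero] at h3
              exact hν.ne_zero h3.symm
            have hx2 : (Ioi x).Nonempty := by
              by_contra hcon
              rw [not_nonempty_iff_eq_empty] at hcon
              have h3 := (hpt x).2
              rw [hcon] at h3
              have h4 : IsEmpty (OrderDual (∅ : Set (HC.T W))) := ⟨fun z =>
                Set.notMem_empty _ (OrderDual.ofDual z).2⟩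
              rw [Order.cof_eq_zero] at h3
              exact hν.ne_zero h3.symm
            have hdense : ∀ a b : HC.T W, a < b → ∃ z, a < z ∧ z < b := by
              intro a b hxy
              obtain ⟨i, hi1, hi2⟩ := HC.T.lt_iff.mp hxy
              obtain ⟨k, hk⟩ := exists_gt i
              obtain ⟨z, hz, hlt⟩ := HC.T.exists_gt_cone hgood (δ := k) (s := a.fn) (x := a)
                (fun j _ => rfl)
              refine ⟨z, hlt, HC.T.lt_iff.mpr ⟨i, ?_, ?_⟩⟩
              · intro j hj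
                rw [hz j (hj.trans hk), hi1 j hj]
              · rw [hz i hk]; exact hi2
            refine ⟨Iio x, Ioi x, ⟨hx1, hx2, fun a ha b hb => lt_trans ha hb, ?_, ?_,
              Or.inr ⟨x, fun a ha => ha, fun b hb => hb, ?_⟩⟩, ?_, ?_⟩
            · intro a ha
              obtain ⟨z, hz1, hz2⟩ := hdense a x ha
              exact ⟨z, hz2, hz1⟩
            · intro b hb
              obtain ⟨z, hz1, hz2⟩ := hdense x b hb
              exact ⟨z, hz1, hz2⟩
            · ext z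
              simp only [mem_union, mem_Iio, mem_singleton_iff, mem_Ioi, mem_univ, iff_true]
              rcases lt_trichotomy z x with h | h | h
              · exact Or.inl (Or.inl h)
              · exact Or.inl (Or.inr h)
              · exact Or.inr h
            · rw [h1]; exact (hpt x).1
            · rw [h2]; exact (hpt x).2
          · have h2' : p.2 < ν := lt_of_le_of_ne (by rw [← hmax]; exact le_max_right _ _) h2
            obtain ⟨δ, hδ⟩ := HC.Col.exists (Λ := Λ) (omega_pos p.2).ne' (hfree p.2 h2')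
            have hδ' : HC.Col δ (free p.2) := hδ
            have hno : ¬ ∃ q ∈ C, HC.Col δ (code q) := by
              rintro ⟨q, hq, hcol⟩
              exact free_ne_code hr2 (hC2 q hq).2 (hδ'.unique hcol)
            obtain ⟨A, B, hcut, hA, hB⟩ := HC.T.exists_cut hgood δ hδ.nonempty
              (hδ'.limit (free_ne p.2))
            refine ⟨A, B, hcutIff hcut, ?_, ?_⟩
            · rw [hA, hcofWfree δ hno, h1]
            · rw [hB, hδ'.cof (free_ne p.2), cof_free hr2]
        · have h1' : p.1 < ν := lt_of_le_of_ne (by rw [← hmax]; exact le_max_left _ _) h1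
          have h2 : p.2 = ν := by
            rcases max_choice p.1 p.2 with h | h
            · exact absurd (h.symm.trans hmax) h1
            · exact h.symm.trans hmax
          obtain ⟨δ, hδ⟩ := HC.Col.exists (Λ := Λ) (omega_pos p.1).ne' (hfree p.1 h1')
          have hδ' : HC.Col δ (free p.1) := hδ
          obtain ⟨A, B, hcut, hA, hB⟩ := HCX.T.exists_cut' hgood δ hδ.nonempty
            (hδ'.limit (free_ne p.1))
          refine ⟨A, B, hcutIff hcut, ?_, ?_⟩
          · rw [hA, hδ'.cof (free_ne p.1), cof_free hr1]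
          · rw [hB, hcofΛ, h2]

theorem realizable (X : Set Ordinal.{u}) (hX : BddAbove X)
    (hreg : ∀ x ∈ X, (ℵ_ x).IsRegular) :
    {C | Realizable X C} = 𝒫 (X ×ˢ X) := by
  ext C
  constructor
  · rintro ⟨T, _, _, _, _, h⟩
    rw [mem_powerset_iff, ← h]
    exact inter_subset_right
  · intro hC
    obtain ⟨μ, hμ⟩ := hX
    have hlt : ∀ x ∈ X, x < μ + 1 := fun x hx => Order.lt_add_one_iff.mpr (hμ hx)
    have hν : (ℵ_ (μ + 1)).IsRegular := isRegular_aleph_add_one μ
    obtain ⟨T, inst, h1, h2, h3, _, _, _, h4⟩ := main (μ + 1) hν C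
      (fun p hp => ⟨hlt _ (hC hp).1, hlt _ (hC hp).2⟩)
      (fun p hp => ⟨hreg _ (hC hp).1, hreg _ (hC hp).2⟩)
    refine ⟨T, inst, h1, h2, h3, ?_⟩
    rw [h4]
    ext p
    constructor
    · rintro ⟨hp | ⟨_, _, hmax⟩, hX1, hX2⟩
      · exact hp
      · exfalso
        rcases max_choice p.1 p.2 with h | h
        · exact (hlt _ hX1).ne (h.symm.trans hmax)
        · exact (hlt _ hX2).ne (h.symm.trans hmax)
    · intro hp
      exact ⟨Or.inl hp, hC hp⟩

theorem card_omega : #{C | Realizable.{u} (Iio ω) C} = 2 ^ ℵ₀ := by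
  rw [realizable (Iio ω) bddAbove_Iio (fun x hx => by
    obtain ⟨n, rfl⟩ := lt_omega0.mp hx
    cases n with
    | zero => simpa using isRegular_aleph0
    | succ m =>
      have := isRegular_aleph_add_one (m : Ordinal.{u})
      simpa using this), mk_powerset]
  congr 1
  have h1 : #(Iio (ω : Ordinal.{u})) = ℵ₀ := by
    rw [Cardinal.mk_Iio_ordinal, card_omega0, lift_aleph0]
  rw [mk_congr (Equiv.Set.prod _ _), mk_prod, Cardinal.lift_id, h1]
  simp

/-- **Theorem.** Let `ℵ_ ν` be a regular cardinal and let `C` be any set of pairs of ordinals below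
`ν` whose alephs are regular. Some 2-homogeneous dense chain `T` has a set of cut characters which
is *exactly* `C` together with all pairs `(α, β)` with `ℵ_ α`, `ℵ_ β` regular and `max α β = ν`;
moreover `T` and all its rays have cofinality and coinitiality `ℵ_ ν`. In particular, for every
bounded set `X` of ordinals with regular alephs the realizable sets are exactly all subsets of
`X²`, and there are `2 ^ ℵ₀` realizable subsets of `ω × ω`. -/
theorem result :
    (∀ ν : Ordinal.{u}, (ℵ_ ν).IsRegular → ∀ C : Set (Ordinal.{u} × Ordinal.{u}),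
      (∀ p ∈ C, p.1 < ν ∧ p.2 < ν) → (∀ p ∈ C, (ℵ_ p.1).IsRegular ∧ (ℵ_ p.2).IsRegular) →
      ∃ (T : Type u) (_ : LinearOrder T), Nontrivial T ∧ DenselyOrdered T ∧ TwoHomogeneous T ∧
        Order.cof T = ℵ_ ν ∧ Order.cof (OrderDual T) = ℵ_ ν ∧
        (∀ x : T, Order.cof (Iio x) = ℵ_ ν ∧ Order.cof (OrderDual (Ioi x)) = ℵ_ ν) ∧
        cutCharacters T =
          C ∪ {p | (ℵ_ p.1).IsRegular ∧ (ℵ_ p.2).IsRegular ∧ max p.1 p.2 = ν}) ∧
    (∀ X : Set Ordinal.{u}, BddAbove X → (∀ x ∈ X, (ℵ_ x).IsRegular) →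
      {C | Realizable X C} = 𝒫 (X ×ˢ X)) ∧
    #{C | Realizable.{u} (Iio ω) C} = 2 ^ ℵ₀ :=
  ⟨fun ν hν C h1 h2 => main ν hν C h1 h2, realizable, card_omega⟩

end Pool.Agent.Results.MP_e86704_lc.FullCharacterSet
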